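import Pool.Agent.helper43.TG.Spec

/-!
# TG.HYB: replacing the weights by indicator functions
-/

set_option autoImplicit false

namespace Pool.Agent.helper43.TG

section HYBaux

variable {V : Type} [Fintype V] [DecidableEq V] (G : SimpleGraph V) [DecidableRel G.Adj] (k : ℕ)

theorem HYB_mem_free (S : Finset V) (c : V → Fin k) (u : V) (a : Fin k) :
    a ∈ free G k S c u ↔ ∀ y ∈ S, G.Adj u y → c y ≠ a := by
  unfold free
  rw [Finset.mem_filter]
  exact and_iff_right (Finset.mem_univ a)

theorem HYB_free_update (T : Finset V) (c : V → Fin k) (u w : V) (a : Fin k) (hu : u ∉ T) :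
    free G k T (Function.update c u a) w = free G k T c w := by
  ext b
  rw [HYB_mem_free, HYB_mem_free]
  constructor
  · intro h y hy hwy
    have h1 := h y hy hwy
    have h2 : y ≠ u := fun e => hu (e ▸ hy)
    rw [Function.update_of_ne h2] at h1
    exact h1
  · intro h y hy hwy
    have h2 : y ≠ u := fun e => hu (e ▸ hy)
    rw [Function.update_of_ne h2]
    exact h y hy hwy

/-- The weight of `u`. -/
noncomputable def HYB_W (h j : ℕ) (T : Finset V) (g : Fin k) (u : V) (c : V → Fin k) : ℝ :=
  if j < (free G k T c u).card ∧ g ∈ free G k T c u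
    then (1 - 1 / (((free G k T c u).card : ℝ) - h)) else 1

/-- The indicator of `u`. -/
noncomputable def HYB_I (j : ℕ) (T : Finset V) (g : Fin k) (u : V) (c : V → Fin k) : ℝ :=
  if j < (free G k T c u).card → c u ≠ g then 1 else 0

theorem HYB_W_nonneg (h j : ℕ) (hj : h + 1 ≤ j) (T : Finset V) (g : Fin k) (u : V)
    (c : V → Fin k) : 0 ≤ HYB_W G k h j T g u c := by
  unfold HYB_W
  split_ifs with h1
  · have h2 : ((h : ℝ) + 2) ≤ ((free G k T c u).card : ℝ) := by
      have h3 : h + 2 ≤ (free G k T c u).card := by
        have := h1.1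
        omega
      exact_mod_cast h3
    have h4 : (1 : ℝ) ≤ ((free G k T c u).card : ℝ) - h := by linarith
    have h5 : 1 / (((free G k T c u).card : ℝ) - h) ≤ 1 := by
      rw [div_le_one (by linarith)]
      exact h4
    linarith
  · exact zero_le_one

theorem HYB_I_nonneg (j : ℕ) (T : Finset V) (g : Fin k) (u : V)
    (c : V → Fin k) : 0 ≤ HYB_I G k j T g u c := by
  unfold HYB_I
  split_ifs
  · exact zero_le_one
  · exact le_refl _

theorem HYB_W_update (h j : ℕ) (T : Finset V) (g : Fin k) (u w : V)
    (c : V → Fin k) (a : Fin k) (hu : u ∉ T) :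
    HYB_W G k h j T g w (Function.update c u a) = HYB_W G k h j T g w c := by
  unfold HYB_W
  rw [HYB_free_update G k T c u w a hu]

theorem HYB_I_update (j : ℕ) (T : Finset V) (g : Fin k) (u w : V)
    (c : V → Fin k) (a : Fin k) (hu : u ∉ T) (hw : w ≠ u) :
    HYB_I G k j T g w (Function.update c u a) = HYB_I G k j T g w c := by
  unfold HYB_I
  rw [HYB_free_update G k T c u w a hu, Function.update_of_ne hw]

theorem HYB_I_update_self (j : ℕ) (T : Finset V) (g : Fin k) (u : V)
    (c : V → Fin k) (a : Fin k) (hu : u ∉ T) :
    HYB_I G k j T g u (Function.update c u a) =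
      if j < (free G k T c u).card → a ≠ g then 1 else 0 := by
  unfold HYB_I
  rw [HYB_free_update G k T c u u a hu, Function.update_self]

/-- The inequality for one vertex and a fixed colouring of the others. -/
theorem HYB_one (h j : ℕ) (S U : Finset V) (g : Fin k) (hUS : U ⊆ S) (hj : h + 1 ≤ j) (u : V)
    (hu : u ∈ U) (hh : (U.filter (fun y => G.Adj u y)).card ≤ h) (c : V → Fin k) :
    ∑ _a ∈ free G k (S.erase u) c u, HYB_W G k h j (S \ U) g u c ≤
      ∑ a ∈ free G k (S.erase u) c u,
        (if j < (free G k (S \ U) c u).card → a ≠ g then (1 : ℝ) else 0) := by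
  have hsub : free G k (S.erase u) c u ⊆ free G k (S \ U) c u := by
    intro a ha
    rw [HYB_mem_free] at ha ⊢
    intro y hy hwy
    rw [Finset.mem_sdiff] at hy
    exact ha y (Finset.mem_erase.mpr ⟨fun e => hy.2 (e ▸ hu), hy.1⟩) hwy
  by_cases h1 : j < (free G k (S \ U) c u).card
  · by_cases h2 : g ∈ free G k (S \ U) c u
    · -- the main case
      have hW : HYB_W G k h j (S \ U) g u c =
          1 - 1 / (((free G k (S \ U) c u).card : ℝ) - h) := by
        unfold HYB_W
        rw [if_pos ⟨h1, h2⟩]
      rw [hW, Finset.sum_const, nsmul_eq_mul]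
      have hcard : (free G k (S \ U) c u).card ≤ (free G k (S.erase u) c u).card + h := by
        have h3 : free G k (S \ U) c u ⊆
            free G k (S.erase u) c u ∪ (U.filter (fun y => G.Adj u y)).image c := by
          intro a ha
          rw [Finset.mem_union]
          by_cases h4 : a ∈ (U.filter (fun y => G.Adj u y)).image c
          · exact Or.inr h4
          · left
            rw [HYB_mem_free] at ha ⊢
            intro y hy hwy
            by_cases h5 : y ∈ U
            · intro h6
              apply h4
              rw [Finset.mem_image]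
              exact ⟨y, Finset.mem_filter.mpr ⟨h5, hwy⟩, h6⟩
            · exact ha y (Finset.mem_sdiff.mpr ⟨(Finset.mem_erase.mp hy).2, h5⟩) hwy
        calc (free G k (S \ U) c u).card ≤ _ := Finset.card_le_card h3
          _ ≤ (free G k (S.erase u) c u).card +
              ((U.filter (fun y => G.Adj u y)).image c).card := Finset.card_union_le _ _
          _ ≤ (free G k (S.erase u) c u).card + h := by
              have := Finset.card_image_le (s := U.filter (fun y => G.Adj u y)) (f := c)
              omega
      have hcardR : ((free G k (S \ U) c u).card : ℝ) ≤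
          ((free G k (S.erase u) c u).card : ℝ) + h := by exact_mod_cast hcard
      have hpos : (0 : ℝ) < ((free G k (S \ U) c u).card : ℝ) - h := by
        have h3 : h + 2 ≤ (free G k (S \ U) c u).card := by omega
        have h4 : ((h : ℝ) + 2) ≤ ((free G k (S \ U) c u).card : ℝ) := by exact_mod_cast h3
        linarith
      have hge : (1 : ℝ) ≤ ((free G k (S.erase u) c u).card : ℝ) *
          (1 / (((free G k (S \ U) c u).card : ℝ) - h)) := by
        rw [mul_one_div, le_div_iff₀ hpos]
        linarith
      have hR : ∑ a ∈ free G k (S.erase u) c u,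
          (if j < (free G k (S \ U) c u).card → a ≠ g then (1 : ℝ) else 0) ≥
          ((free G k (S.erase u) c u).card : ℝ) - 1 := by
        have h3 : ∀ a ∈ free G k (S.erase u) c u,
            (1 : ℝ) - (if a = g then 1 else 0) ≤
            (if j < (free G k (S \ U) c u).card → a ≠ g then (1 : ℝ) else 0) := by
          intro a _
          by_cases h4 : a = g
          · rw [if_pos h4]
            split_ifs
            · linarith
            · linarith
          · rw [if_neg h4, if_pos (fun _ => h4)]
            linarith
        have h5 := Finset.sum_le_sum h3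
        rw [Finset.sum_sub_distrib, Finset.sum_const, nsmul_eq_mul, mul_one,
          Finset.sum_ite_eq'] at h5
        have h6 : (if g ∈ free G k (S.erase u) c u then (1 : ℝ) else 0) ≤ 1 := by
          split_ifs
          · exact le_refl _
          · exact zero_le_one
        linarith
      nlinarith
    · -- `g` is not in the list
      have hW : HYB_W G k h j (S \ U) g u c = 1 := by
        unfold HYB_W
        rw [if_neg (fun e => h2 e.2)]
      rw [hW]
      apply Finset.sum_le_sum
      intro a ha
      have h3 : j < (free G k (S \ U) c u).card → a ≠ g := by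
        intro _ e
        apply h2
        rw [← e]
        exact hsub ha
      rw [if_pos h3]
  · have hW : HYB_W G k h j (S \ U) g u c = 1 := by
      unfold HYB_W
      rw [if_neg (fun e => h1 e.1)]
    rw [hW]
    apply Finset.sum_le_sum
    intro a _
    rw [if_pos (fun e => absurd e h1)]

/-- The step for one vertex. -/
theorem HYB_step (hUPD : UPD) (h j : ℕ) (S U : Finset V) (g : Fin k) (hUS : U ⊆ S)
    (hj : h + 1 ≤ j) (u : V)
    (hu : u ∈ U) (hh : (U.filter (fun y => G.Adj u y)).card ≤ h) (P : (V → Fin k) → ℝ)
    (hP0 : ∀ c, 0 ≤ P c) (hPu : ∀ c a, P (Function.update c u a) = P c) :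
    ∑ c ∈ prop G k S, HYB_W G k h j (S \ U) g u c * P c ≤
      ∑ c ∈ prop G k S, HYB_I G k j (S \ U) g u c * P c := by
  have hk : (0 : ℝ) < (k : ℝ) := by
    have : 0 < k := g.pos
    exact_mod_cast this
  have huT : u ∉ S \ U := fun e => (Finset.mem_sdiff.mp e).2 hu
  have hS : S = insert u (S.erase u) := (Finset.insert_erase (hUS hu)).symm
  have e1 := hUPD V G k (S.erase u) u (fun c => HYB_W G k h j (S \ U) g u c * P c)
    (Finset.notMem_erase u S)
  have e2 := hUPD V G k (S.erase u) u (fun c => HYB_I G k j (S \ U) g u c * P c)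
    (Finset.notMem_erase u S)
  rw [← hS] at e1 e2
  have hle : ∑ c ∈ prop G k (S.erase u), ∑ a ∈ free G k (S.erase u) c u,
      (fun c => HYB_W G k h j (S \ U) g u c * P c) (Function.update c u a) ≤
      ∑ c ∈ prop G k (S.erase u), ∑ a ∈ free G k (S.erase u) c u,
      (fun c => HYB_I G k j (S \ U) g u c * P c) (Function.update c u a) := by
    apply Finset.sum_le_sum
    intro c _
    have h1 : ∑ a ∈ free G k (S.erase u) c u,
        (fun c => HYB_W G k h j (S \ U) g u c * P c) (Function.update c u a) =
        (∑ _a ∈ free G k (S.erase u) c u, HYB_W G k h j (S \ U) g u c) * P c := by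
      rw [Finset.sum_mul]
      apply Finset.sum_congr rfl
      intro a _
      show HYB_W G k h j (S \ U) g u (Function.update c u a) * P (Function.update c u a) = _
      rw [HYB_W_update G k h j (S \ U) g u u c a huT, hPu]
    have h2 : ∑ a ∈ free G k (S.erase u) c u,
        (fun c => HYB_I G k j (S \ U) g u c * P c) (Function.update c u a) =
        (∑ a ∈ free G k (S.erase u) c u,
          (if j < (free G k (S \ U) c u).card → a ≠ g then (1 : ℝ) else 0)) * P c := by
      rw [Finset.sum_mul]
      apply Finset.sum_congr rfl
      intro a _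
      show HYB_I G k j (S \ U) g u (Function.update c u a) * P (Function.update c u a) = _
      rw [HYB_I_update_self G k j (S \ U) g u c a huT, hPu]
    rw [h1, h2]
    exact mul_le_mul_of_nonneg_right (HYB_one G k h j S U g hUS hj u hu hh c) (hP0 c)
  rw [← e1, ← e2] at hle
  exact le_of_mul_le_mul_left hle hk

end HYBaux

theorem t_hyb (hUPD : UPD) : HYB := by
  intro V _ _ G _ k h j S U g hUS hj hh
  have hmain : ∀ A : Finset V, A ⊆ U →
      ∑ c ∈ prop G k S, ∏ u ∈ U, HYB_W G k h j (S \ U) g u c ≤
      ∑ c ∈ prop G k S, (∏ u ∈ U \ A, HYB_W G k h j (S \ U) g u c) *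
        ∏ u ∈ A, HYB_I G k j (S \ U) g u c := by
    intro A
    induction A using Finset.induction_on with
    | empty =>
      intro _
      apply le_of_eq
      apply Finset.sum_congr rfl
      intro c _
      rw [Finset.sdiff_empty, Finset.prod_empty, mul_one]
    | insert u A huA ih =>
      intro hA
      have huU : u ∈ U := hA (Finset.mem_insert_self u A)
      refine (ih (fun x hx => hA (Finset.mem_insert_of_mem hx))).trans ?_
      have hset : U \ A = insert u (U \ insert u A) := by
        ext x
        simp only [Finset.mem_sdiff, Finset.mem_insert]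
        constructor
        · rintro ⟨h1, h2⟩
          by_cases h3 : x = u
          · exact Or.inl h3
          · exact Or.inr ⟨h1, fun e => e.elim h3 h2⟩
        · rintro (h1 | ⟨h1, h2⟩)
          · rw [h1]
            exact ⟨huU, huA⟩
          · exact ⟨h1, fun e => h2 (Or.inr e)⟩
      have hnot : u ∉ U \ insert u A := fun e =>
        (Finset.mem_sdiff.mp e).2 (Finset.mem_insert_self u A)
      have huT : u ∉ S \ U := fun e => (Finset.mem_sdiff.mp e).2 huU
      have hst := HYB_step G k hUPD h j S U g hUS hj u huU (hh u huU)
        (fun c => (∏ w ∈ U \ insert u A, HYB_W G k h j (S \ U) g w c) *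
          ∏ w ∈ A, HYB_I G k j (S \ U) g w c)
        (fun c => mul_nonneg
          (Finset.prod_nonneg fun w _ => HYB_W_nonneg G k h j hj (S \ U) g w c)
          (Finset.prod_nonneg fun w _ => HYB_I_nonneg G k j (S \ U) g w c))
        (fun c a => by
          show (∏ w ∈ U \ insert u A, HYB_W G k h j (S \ U) g w (Function.update c u a)) *
              ∏ w ∈ A, HYB_I G k j (S \ U) g w (Function.update c u a) =
            (∏ w ∈ U \ insert u A, HYB_W G k h j (S \ U) g w c) *
              ∏ w ∈ A, HYB_I G k j (S \ U) g w c
          congr 1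
          · apply Finset.prod_congr rfl
            intro w _
            exact HYB_W_update G k h j (S \ U) g u w c a huT
          · apply Finset.prod_congr rfl
            intro w hw
            exact HYB_I_update G k j (S \ U) g u w c a huT (fun e => huA (e ▸ hw)))
      have hl : ∑ c ∈ prop G k S, (∏ w ∈ U \ A, HYB_W G k h j (S \ U) g w c) *
          ∏ w ∈ A, HYB_I G k j (S \ U) g w c =
          ∑ c ∈ prop G k S, HYB_W G k h j (S \ U) g u c *
            ((∏ w ∈ U \ insert u A, HYB_W G k h j (S \ U) g w c) *
          ∏ w ∈ A, HYB_I G k j (S \ U) g w c) := by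
        apply Finset.sum_congr rfl
        intro c _
        rw [hset, Finset.prod_insert hnot, mul_assoc]
      have hr : ∑ c ∈ prop G k S, (∏ w ∈ U \ insert u A, HYB_W G k h j (S \ U) g w c) *
          ∏ w ∈ insert u A, HYB_I G k j (S \ U) g w c =
          ∑ c ∈ prop G k S, HYB_I G k j (S \ U) g u c *
            ((∏ w ∈ U \ insert u A, HYB_W G k h j (S \ U) g w c) *
          ∏ w ∈ A, HYB_I G k j (S \ U) g w c) := by
        apply Finset.sum_congr rfl
        intro c _
        rw [Finset.prod_insert huA]
        ring
      rw [hl, hr]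
      exact hst
  have h1 := hmain U (Finset.Subset.refl U)
  refine h1.trans (le_of_eq ?_)
  rw [Finset.card_filter, Nat.cast_sum]
  apply Finset.sum_congr rfl
  intro c _
  rw [Finset.sdiff_self, Finset.prod_empty, one_mul]
  by_cases h2 : ∀ u ∈ U, j < (free G k (S \ U) c u).card → c u ≠ g
  · rw [if_pos h2, Nat.cast_one]
    apply Finset.prod_eq_one
    intro u hu
    unfold HYB_I
    rw [if_pos (h2 u hu)]
  · rw [if_neg h2, Nat.cast_zero]
    push Not at h2
    obtain ⟨u, hu, h3, h4⟩ := h2
    apply Finset.prod_eq_zero hu
    unfold HYB_I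
    rw [if_neg (fun e => e h3 h4)]

end Pool.Agent.helper43.TG
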